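import Pool.Agent.H2.ED.Targets

/-!
# The local ring of a subvariety (row LRG)
-/

set_option autoImplicit false

open MvPolynomial
open Pool.Agent.H12.ZD (pmap)
open Pool.Agent.H18.HIT Pool.Agent.H18.HX Pool.Agent.H18.VZ
open Pool.Agent.H8.TD (lc dg Wsp)
open Pool.Agent.H2.ED

namespace Pool.Agent.H68.ED

/-- the homogenisation with the variable `X 1` -/
noncomputable def hmg {ν : ℕ} {k : Type} [Field k] (p : Po (ν + 2) k) : Po (ν + 2) k :=
  ∑ j ∈ Finset.range (p.totalDegree + 1), X 1 ^ (p.totalDegree - j) * homogeneousComponent j p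

theorem hmg_hom {ν : ℕ} {k : Type} [Field k] (p : Po (ν + 2) k) :
    (hmg p).IsHomogeneous p.totalDegree := by
  refine IsHomogeneous.sum _ _ _ fun j hj => ?_
  have h1 : j ≤ p.totalDegree := Nat.lt_succ_iff.1 (Finset.mem_range.1 hj)
  have h2 : (X 1 ^ (p.totalDegree - j) : Po (ν + 2) k).IsHomogeneous (p.totalDegree - j) := by
    have := (isHomogeneous_X k (1 : Fin (ν + 2))).pow (p.totalDegree - j)
    rwa [one_mul] at this
  have h3 := h2.mul (homogeneousComponent_isHomogeneous j p)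
  rwa [Nat.sub_add_cancel h1] at h3

theorem hmg_aeval {ν : ℕ} {k : Type} [Field k] {K : Type} [Field K] [Algebra k K]
    (p : Po (ν + 2) k) (ξ : Fin (ν + 2) → K) (h1 : ξ 1 = 1) : aeval ξ (hmg p) = aeval ξ p := by
  unfold hmg
  rw [map_sum]
  conv_rhs => rw [← sum_homogeneousComponent p]
  rw [map_sum]
  refine Finset.sum_congr rfl fun j _ => ?_
  rw [map_mul, map_pow, aeval_X, h1, one_pow, one_mul]

/-- a relation at the generic point of the hypersurface holds at the generic point of `V` -/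
theorem key {ν r : ℕ} {k K κ : Type} [Field k] [Field K] [Algebra k K] [Field κ] [Algebra k κ]
    {P : Po (ν + 2) k} {V : Ideal (Po (ν + 2) k)} {ξ : Fin (ν + 2) → K} {η : Fin (ν + 2) → κ}
    (hPV : P ∈ V) (hG : Gp P ξ) (hV : Gv V r η) (p : Po (ν + 2) k) (hp : aeval ξ p = 0) :
    aeval η p = 0 := by
  rw [← hmg_aeval p ξ hG.one] at hp
  rw [← hmg_aeval p η hV.one]
  obtain ⟨c, hc⟩ := (hG.iff _ _ (hmg_hom p)).1 hp
  refine (hV.iff _ _ (hmg_hom p)).2 ?_
  rw [hc]
  exact V.mul_mem_right _ hPV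

section ring

variable {ν : ℕ} {k K κ : Type} [Field k] [Field K] [Algebra k K] [Field κ] [Algebra k κ]
  (ξ : Fin (ν + 2) → K) (η : Fin (ν + 2) → κ)

/-- `z = p / q` with `q` not zero at `η` -/
def Rep (z : K) (p q : Po (ν + 2) k) : Prop := aeval η q ≠ 0 ∧ z * aeval ξ q = aeval ξ p

variable {ξ η}

theorem Rep.uniq (hK : ∀ p : Po (ν + 2) k, aeval ξ p = 0 → aeval η p = 0) {z : K}
    {p q p' q' : Po (ν + 2) k} (h : Rep ξ η z p q) (h' : Rep ξ η z p' q') :
    aeval η p / aeval η q = aeval η p' / aeval η q' := by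
  have h1 : aeval ξ (p * q' - p' * q) = 0 := by
    rw [map_sub, map_mul, map_mul, ← h.2, ← h'.2]
    ring
  have h2 := hK _ h1
  rw [map_sub, map_mul, map_mul, sub_eq_zero] at h2
  rw [div_eq_div_iff h.1 h'.1, h2]

theorem Rep.mul {z z' : K} {p q p' q' : Po (ν + 2) k} (h : Rep ξ η z p q)
    (h' : Rep ξ η z' p' q') : Rep ξ η (z * z') (p * p') (q * q') := by
  refine ⟨by rw [map_mul]; exact mul_ne_zero h.1 h'.1, ?_⟩
  rw [map_mul, map_mul, ← h.2, ← h'.2]
  ring

theorem Rep.add {z z' : K} {p q p' q' : Po (ν + 2) k} (h : Rep ξ η z p q)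
    (h' : Rep ξ η z' p' q') : Rep ξ η (z + z') (p * q' + p' * q) (q * q') := by
  refine ⟨by rw [map_mul]; exact mul_ne_zero h.1 h'.1, ?_⟩
  rw [map_mul, map_add, map_mul, map_mul, ← h.2, ← h'.2]
  ring

theorem Rep.poly (p : Po (ν + 2) k) : Rep ξ η (aeval ξ p) p 1 := by
  refine ⟨by rw [map_one]; exact one_ne_zero, ?_⟩
  rw [map_one, mul_one]

theorem Rep.alg (c : k) : Rep ξ η (algebraMap k K c) (C c) 1 := by
  have h := Rep.poly (ξ := ξ) (η := η) (C c : Po (ν + 2) k)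
  rwa [aeval_C] at h

variable (ξ η)

variable (k) in
/-- the local ring -/
def locR : Subalgebra k K where
  carrier := {z | ∃ p q : Po (ν + 2) k, Rep ξ η z p q}
  mul_mem' := by
    rintro z z' ⟨p, q, h⟩ ⟨p', q', h'⟩
    exact ⟨_, _, h.mul h'⟩
  add_mem' := by
    rintro z z' ⟨p, q, h⟩ ⟨p', q', h'⟩
    exact ⟨_, _, h.add h'⟩
  algebraMap_mem' := fun c => ⟨_, _, Rep.alg c⟩

theorem mem_locR (z : K) : z ∈ locR k ξ η ↔ ∃ p q : Po (ν + 2) k, Rep ξ η z p q := Iff.rfl

variable (k) in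
/-- the value at `η` -/
noncomputable def locV (z : locR k ξ η) : κ :=
  aeval η (Classical.choose z.2) / aeval η (Classical.choose (Classical.choose_spec z.2))

variable {ξ η}

theorem locV_eq (hK : ∀ p : Po (ν + 2) k, aeval ξ p = 0 → aeval η p = 0) (z : locR k ξ η)
    {p q : Po (ν + 2) k} (h : Rep ξ η (z : K) p q) : locV k ξ η z = aeval η p / aeval η q :=
  Rep.uniq hK (Classical.choose_spec (Classical.choose_spec z.2)) h

/-- the value at `η`, as a homomorphism -/
noncomputable def locH (hK : ∀ p : Po (ν + 2) k, aeval ξ p = 0 → aeval η p = 0) :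
    locR k ξ η →ₐ[k] κ where
  toFun := locV k ξ η
  map_one' := by
    have h : Rep ξ η ((1 : locR k ξ η) : K) (1 : Po (ν + 2) k) 1 := by
      have := Rep.poly (ξ := ξ) (η := η) (1 : Po (ν + 2) k)
      rwa [map_one] at this
    rw [locV_eq hK _ h, map_one, div_one]
  map_zero' := by
    have h : Rep ξ η ((0 : locR k ξ η) : K) (0 : Po (ν + 2) k) 1 := by
      have := Rep.poly (ξ := ξ) (η := η) (0 : Po (ν + 2) k)
      rwa [map_zero] at this
    rw [locV_eq hK _ h, map_zero, zero_div]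
  map_mul' := by
    intro z z'
    obtain ⟨p, q, h⟩ := z.2
    obtain ⟨p', q', h'⟩ := z'.2
    have h2 : Rep ξ η ((z * z' : locR k ξ η) : K) (p * p') (q * q') := h.mul h'
    rw [locV_eq hK _ h2, locV_eq hK _ h, locV_eq hK _ h', map_mul, map_mul]
    exact (div_mul_div_comm _ _ _ _).symm
  map_add' := by
    intro z z'
    obtain ⟨p, q, h⟩ := z.2
    obtain ⟨p', q', h'⟩ := z'.2
    have h2 : Rep ξ η ((z + z' : locR k ξ η) : K) (p * q' + p' * q) (q * q') := h.add h'
    rw [locV_eq hK _ h2, locV_eq hK _ h, locV_eq hK _ h', map_mul, map_add, map_mul, map_mul]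
    rw [div_add_div _ _ h.1 h'.1]
    ring
  commutes' := by
    intro c
    have h : Rep ξ η ((algebraMap k (locR k ξ η) c : locR k ξ η) : K) (C c) 1 := Rep.alg c
    rw [locV_eq hK _ h, map_one, div_one, aeval_C]

theorem locH_eq (hK : ∀ p : Po (ν + 2) k, aeval ξ p = 0 → aeval η p = 0) (z : locR k ξ η)
    {p q : Po (ν + 2) k} (h : Rep ξ η (z : K) p q) : locH hK z = aeval η p / aeval η q :=
  locV_eq hK z h

end ring

theorem pf_LRG : T_LRG := by
  intro ν r k K κ _ _ _ _ _ P V ξ η hPV hG hV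
  have hK : ∀ p : Po (ν + 2) k, aeval ξ p = 0 → aeval η p = 0 := fun p hp => key hPV hG hV p hp
  refine ⟨locR k ξ η, locH hK, ?_, ?_, ?_, ?_, ?_⟩
  · intro x
    have hx : x ∈ IntermediateField.adjoin k (Set.range η) := by
      rw [hV.top]; exact IntermediateField.mem_top
    obtain ⟨p, q, hpq⟩ := (IntermediateField.mem_adjoin_range_iff (F := k) η x).1 hx
    by_cases hq : aeval η q = 0
    · refine ⟨0, ?_⟩
      rw [map_zero, hpq, hq, div_zero]
    · have hq' : aeval ξ q ≠ 0 := fun h => hq (hK q h)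
      have hrep : Rep ξ η (aeval ξ p / aeval ξ q) p q := ⟨hq, div_mul_cancel₀ _ hq'⟩
      refine ⟨⟨aeval ξ p / aeval ξ q, ⟨p, q, hrep⟩⟩, ?_⟩
      rw [locH_eq hK ⟨aeval ξ p / aeval ξ q, ⟨p, q, hrep⟩⟩ hrep, hpq]
  · intro p
    exact ⟨p, 1, Rep.poly p⟩
  · intro p h
    have hrep : Rep ξ η ((⟨aeval ξ p, h⟩ : locR k ξ η) : K) p 1 := Rep.poly p
    rw [locH_eq hK _ hrep, map_one, div_one]
  · intro z hz
    obtain ⟨p, q, h⟩ := z.2
    rw [locH_eq hK _ h] at hz
    have hp : aeval η p ≠ 0 := fun h0 => hz (by rw [h0, zero_div])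
    have hz0 : (z : K) ≠ 0 := by
      intro h0
      have h1 := h.2
      rw [h0, zero_mul] at h1
      exact hp (hK p h1.symm)
    refine ⟨q, p, hp, ?_⟩
    rw [← h.2, ← mul_assoc, inv_mul_cancel₀ hz0, one_mul]
  · intro z
    obtain ⟨p, q, h⟩ := z.2
    exact ⟨p, q, h⟩

end Pool.Agent.H68.ED
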