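import Pool.Agent.H2.ED.Targets
import Pool.Agent.H68.ED.LRG

/-!
# The partial derivatives on the local ring of a subvariety (row DRV)
-/

set_option autoImplicit false

open MvPolynomial
open Pool.Agent.H12.ZD (pmap)
open Pool.Agent.H18.HIT Pool.Agent.H18.HX Pool.Agent.H18.VZ
open Pool.Agent.H8.TD (lc dg Wsp)
open Pool.Agent.H2.ED

namespace Pool.Agent.H68.ED

theorem dd_X1 {ν : ℕ} {k : Type} [Field k] (P : Po (ν + 2) k) (j : Fin ν) :
    dd P j.succ (X 1) = 0 := by
  have h1 : (j.succ.succ : Fin (ν + 2)) ≠ 1 := by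
    intro h
    have h2 := congrArg Fin.val h
    simp at h2
  have h0 : (0 : Fin (ν + 2)) ≠ 1 := by
    intro h
    have h2 := congrArg Fin.val h
    simp at h2
  unfold dd
  rw [Derivation.sub_apply, Derivation.smul_apply, Derivation.smul_apply,
    pderiv_X_of_ne h1.symm, pderiv_X_of_ne h0.symm]
  simp

theorem dd_self {ν : ℕ} {k : Type} [Field k] (P : Po (ν + 2) k) (j : Fin ν) :
    dd P j.succ P = 0 := by
  unfold dd
  rw [Derivation.sub_apply, Derivation.smul_apply, Derivation.smul_apply, smul_eq_mul,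
    smul_eq_mul]
  ring

theorem dd_hmg {ν : ℕ} {k : Type} [Field k] {K : Type} [Field K] [Algebra k K]
    (P : Po (ν + 2) k) (j : Fin ν) (p : Po (ν + 2) k) (ξ : Fin (ν + 2) → K) (h1 : ξ 1 = 1) :
    aeval ξ (dd P j.succ (hmg p)) = aeval ξ (dd P j.succ p) := by
  unfold hmg
  conv_rhs => rw [← sum_homogeneousComponent p]
  rw [map_sum, map_sum, map_sum, map_sum]
  refine Finset.sum_congr rfl fun i _ => ?_
  rw [Derivation.leibniz, Derivation.leibniz_pow, dd_X1]
  simp only [smul_eq_mul]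
  rw [mul_zero, smul_zero, mul_zero, add_zero, map_mul, map_pow, aeval_X, h1, one_pow, one_mul]

/-- the derivations kill the relations at the generic point -/
theorem dd_ker {ν r₀ : ℕ} {k : Type} [Field k] {K : Type} [Field K] [Algebra k K]
    {P : Po (ν + 2) k} {ξ : Fin (ν + 2) → K} (hH : Hyp P r₀) (hG : Gp P ξ) (j : Fin ν)
    (p : Po (ν + 2) k) (hp : aeval ξ p = 0) : aeval ξ (dd P j.succ p) = 0 := by
  rw [← dd_hmg P j p ξ hG.one]
  rw [← hmg_aeval p ξ hG.one] at hp
  obtain ⟨c, hc⟩ := (hG.iff _ _ (hmg_hom p)).1 hp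
  have hP : aeval ξ P = 0 := (hG.iff _ _ hH.hom).2 dvd_rfl
  rw [hc, Derivation.leibniz, dd_self, smul_zero, add_zero, smul_eq_mul, map_mul, hP, zero_mul]

section drv

variable {ν : ℕ} {k K κ : Type} [Field k] [Field K] [Algebra k K] [Field κ] [Algebra k κ]
  {ξ : Fin (ν + 2) → K} {η : Fin (ν + 2) → κ}

/-- well-definedness -/
theorem drv_uniq (hK : ∀ p : Po (ν + 2) k, aeval ξ p = 0 → aeval η p = 0)
    (d : Derivation k (Po (ν + 2) k) (Po (ν + 2) k))
    (hd : ∀ p : Po (ν + 2) k, aeval ξ p = 0 → aeval ξ (d p) = 0) {z : K}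
    {p q p' q' : Po (ν + 2) k} (h : Rep ξ η z p q) (h' : Rep ξ η z p' q') :
    (aeval ξ (d p) - z * aeval ξ (d q)) / aeval ξ q =
      (aeval ξ (d p') - z * aeval ξ (d q')) / aeval ξ q' := by
  have hq : aeval ξ q ≠ 0 := fun h0 => h.1 (hK q h0)
  have hq' : aeval ξ q' ≠ 0 := fun h0 => h'.1 (hK q' h0)
  have h1 : aeval ξ (p * q' - p' * q) = 0 := by
    rw [map_sub, map_mul, map_mul, ← h.2, ← h'.2]
    ring
  have h2 := hd _ h1
  rw [map_sub, Derivation.leibniz, Derivation.leibniz, map_sub, map_add, map_add] at h2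
  simp only [smul_eq_mul, map_mul] at h2
  rw [← h.2, ← h'.2] at h2
  rw [div_eq_div_iff hq hq']
  linear_combination h2

end drv

theorem pf_DRV : T_DRV := by
  intro ν r₀ r k K κ _ _ _ _ _ _ P V ξ η R ρ hH hPV hG hV hL hP0
  have hK : ∀ p : Po (ν + 2) k, aeval ξ p = 0 → aeval η p = 0 := fun p hp => key hPV hG hV p hp
  have hp0 : aeval ξ (pderiv 0 P) ≠ 0 := fun h => hP0 (hK _ h)
  have hrep : ∀ z : R, ∃ pq : Po (ν + 2) k × Po (ν + 2) k, Rep ξ η (z : K) pq.1 pq.2 := by
    intro z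
    obtain ⟨p, q, h1, h2⟩ := hL.frc z
    exact ⟨(p, q), h1, h2⟩
  choose rp hrp using hrep
  have hinv : ∀ q : Po (ν + 2) k, aeval η q ≠ 0 → (aeval ξ q)⁻¹ ∈ R := by
    intro q hq
    exact hL.inv ⟨aeval ξ q, hL.mem q⟩ (by rw [hL.val]; exact hq)
  -- the value
  let f : Fin ν → R → K := fun j z =>
    (aeval ξ (dd P j.succ (rp z).1) - (z : K) * aeval ξ (dd P j.succ (rp z).2)) /
      aeval ξ (rp z).2 / aeval ξ (pderiv 0 P)
  have hf : ∀ (j : Fin ν) (z : R) (p q : Po (ν + 2) k), Rep ξ η (z : K) p q →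
      f j z = (aeval ξ (dd P j.succ p) - (z : K) * aeval ξ (dd P j.succ q)) /
        aeval ξ q / aeval ξ (pderiv 0 P) := by
    intro j z p q h
    change _ / _ / _ = _
    rw [drv_uniq hK (dd P j.succ) (dd_ker hH hG j) (hrp z) h]
  have hne : ∀ {q : Po (ν + 2) k}, aeval η q ≠ 0 → aeval ξ q ≠ 0 := fun hq h0 => hq (hK _ h0)
  have hfR : ∀ (j : Fin ν) (z : R), f j z ∈ R := by
    intro j z
    change _ / _ / _ ∈ R
    rw [div_eq_mul_inv, div_eq_mul_inv]
    refine R.mul_mem (R.mul_mem (R.sub_mem (hL.mem _) (R.mul_mem z.2 (hL.mem _))) ?_) ?_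
    · exact hinv _ (hrp z).1
    · exact hinv _ hP0
  have hadd : ∀ (j : Fin ν) (z z' : R), f j (z + z') = f j z + f j z' := by
    intro j z z'
    have h := hrp z
    have h' := hrp z'
    have h2 : Rep ξ η ((z + z' : R) : K) _ _ := h.add h'
    rw [hf j _ _ _ h2, hf j _ _ _ h, hf j _ _ _ h']
    have hq := hne h.1
    have hq' := hne h'.1
    rw [map_add, Derivation.leibniz, Derivation.leibniz, Derivation.leibniz]
    simp only [smul_eq_mul, map_mul, map_add]
    rw [← h.2, ← h'.2]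
    push_cast
    field_simp
    ring
  have hmul : ∀ (j : Fin ν) (z z' : R), f j (z * z') = (z : K) * f j z' + (z' : K) * f j z := by
    intro j z z'
    have h := hrp z
    have h' := hrp z'
    have h2 : Rep ξ η ((z * z' : R) : K) _ _ := h.mul h'
    rw [hf j _ _ _ h2, hf j _ _ _ h, hf j _ _ _ h']
    have hq := hne h.1
    have hq' := hne h'.1
    rw [Derivation.leibniz, Derivation.leibniz]
    simp only [smul_eq_mul, map_mul, map_add]
    rw [← h.2, ← h'.2]
    push_cast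
    field_simp
    ring
  have hsmul : ∀ (j : Fin ν) (c : k) (z : R), f j (c • z) = c • f j z := by
    intro j c z
    have h := hrp z
    have h2 : Rep ξ η ((c • z : R) : K) (c • (rp z).1) (rp z).2 := by
      refine ⟨h.1, ?_⟩
      rw [map_smul, ← h.2]
      change (c • (z : K)) * _ = _
      rw [smul_mul_assoc]
    rw [hf j _ _ _ h2, hf j _ _ _ h, Derivation.map_smul, map_smul]
    change (c • _ - (c • (z : K)) * _) / _ / _ = _
    rw [smul_mul_assoc, ← smul_sub, smul_div_assoc, smul_div_assoc]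
  refine ⟨fun j => Derivation.mk'
    { toFun := fun z => ⟨f j z, hfR j z⟩
      map_add' := fun z z' => Subtype.ext (hadd j z z')
      map_smul' := fun c z => Subtype.ext (hsmul j c z) }
    (fun z z' => Subtype.ext (hmul j z z')), ?_⟩
  intro j p h
  have h2 : Rep ξ η ((⟨aeval ξ p, h⟩ : R) : K) p 1 := Rep.poly p
  change f j ⟨aeval ξ p, h⟩ * _ = _
  rw [hf j _ _ _ h2, Derivation.map_one_eq_zero, map_zero, map_one, mul_zero, sub_zero, div_one,
    div_mul_cancel₀ _ hp0]

end Pool.Agent.H68.ED
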